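import Mathlib
import Pool.Agent.H24.FD.P5

/-!
# MP_1f2761, `k = 2`: row PQQ (base `q` part of the window theorem)
-/

set_option autoImplicit false

open Finset Pool.K2 Pool.FD MeasureTheory

namespace Pool.Agent.H24.FD

namespace PQQP

theorem cardle (K : ℕ) (P Q R : ℕ → Prop) (d1 : DecidablePred P) (d2 : DecidablePred Q)
    (d3 : DecidablePred R) (h : ∀ i, P i → Q i ∨ R i) (a b : ℝ)
    (hQ : (((range K).filter Q).card : ℝ) ≤ a) (hR : (((range K).filter R).card : ℝ) ≤ b) :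
    (((range K).filter P).card : ℝ) ≤ a + b := by
  have h1 : (range K).filter P ⊆ (range K).filter Q ∪ (range K).filter R := by
    intro i hi
    rw [mem_filter] at hi
    rw [mem_union, mem_filter, mem_filter]
    rcases h i hi.2 with h2 | h2
    · exact Or.inl ⟨hi.1, h2⟩
    · exact Or.inr ⟨hi.1, h2⟩
  have h2 := (card_le_card h1).trans (card_union_le _ _)
  have h3 : (((range K).filter P).card : ℝ) ≤ (((range K).filter Q).card : ℝ) +
      (((range K).filter R).card : ℝ) := by exact_mod_cast h2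
  linarith

theorem dens_nonneg (q : ℕ) (hq : q = 3 ∨ q = 5) : 0 ≤ dens q q := by
  have h2 : q ≠ 2 := by omega
  unfold dens
  rw [if_neg h2, if_pos rfl]
  apply div_nonneg
  · split_ifs <;> norm_num
  · apply Real.logb_nonneg (by norm_num)
    rcases hq with h | h <;> rw [h] <;> norm_num

end PQQP

open PQQP in
theorem pqq (hWNQ : WNQStmt) (hLQQ : LQQStmt) (hPRM : PRMStmt) (hBET : BETStmt) (hAVF : AVFStmt)
    (hAVS : AVSStmt) (hONN : ONNStmt) (hLIM : LIMStmt) (hATY : ATYStmt) (hMARG : MARGStmt) :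
    PQQStmt := by
  intro q hq e T m g θ εk wm he he1 hT hm hg hθ hθe hεk hεke hg2 hMK hexc
  have hq2 : 2 ≤ q := by omega
  have hxx : 1 / 2 ≤ xx q ∧ xx q ≤ 1 := by
    unfold xx
    split_ifs <;> norm_num
  obtain ⟨l1, hl1⟩ := hPRM hMARG q hq m g hm hg θ hθ (by linarith)
  obtain ⟨l2, hl2⟩ := hLQQ hLIM hATY q hq m g T e θ εk he he1 hT hθ hθe hεk hεke hg2
  obtain ⟨l3, hl3⟩ := hAVF q hq m g T hm hg θ hθ (e / 8) (by linarith)
  obtain ⟨l4, hl4⟩ := hAVS q hq m g T hm hg θ hθ (e / 8) (by linarith)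
  refine ⟨max (max l1 l2) (max l3 l4), ?_⟩
  intro l hl W hW
  have e1 : l1 ≤ l := (le_max_left _ _).trans ((le_max_left _ _).trans hl)
  have e2 : l2 ≤ l := (le_max_right _ _).trans ((le_max_left _ _).trans hl)
  have e3 : l3 ≤ l := (le_max_left _ _).trans ((le_max_right _ _).trans hl)
  have e4 : l4 ≤ l := (le_max_right _ _).trans ((le_max_right _ _).trans hl)
  obtain ⟨h200, hu, hPar⟩ := hl1 l e1
  have hpar : Par q m g (t1 θ l) l l wm := hPar wm hMK
  have hnum := hl2 l e2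
  have ht1 : θ * (l : ℝ) ^ 2 ≤ ((t1 θ l : ℕ) : ℝ) := by
    unfold t1
    exact Nat.le_ceil _
  obtain ⟨K1, hK1⟩ := hl3 l e3 wm hMK (t1 θ l) ht1 hpar.ht W hW
  obtain ⟨K2, hK2⟩ := hl4 l e4 wm hMK (t1 θ l) ht1 hpar.ht W hW
  refine hBET q q l T W e (fun Jt J z => omW q m g (t1 θ l) wm (l * l) 3200 Jt J z)
    (fun J => WGood q m g (t1 θ l) l l T (J + W) wm ∧ ∀ b, 3200 ≤ b → b < 3200 + T →
      GoodF q m g (t1 θ l) l l wm (J + W - l * l * b)) hq2 he (dens_nonneg q hq) hpar.marg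
    hpar.hl ?_ hW ?_ ?_
  · intro Jt J z
    exact hONN q m g (t1 θ l) (l * l) 3200 Jt kk wm hq2 hg hMK J z
  · intro J hG x
    have h1 := hWNQ q m g (t1 θ l) l l T (J + W) wm (xx q) εk (e / 16) hpar h200 (by omega)
      (by linarith) (by rw [← hW]; omega) hεk (by linarith [hxx.1]) hxx.2 hexc hG.1 hG.2 x
    have h2 : J + W - l * l * (3200 + T) = J := by rw [← hW]; omega
    rw [h2, ← hW] at h1
    refine h1.trans ?_
    rw [← hW] at hnum
    exact hnum
  · refine ⟨max K1 K2, ?_⟩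
    intro K hK J
    have f1 := hK1 K ((le_max_left _ _).trans hK) J
    have f2 := hK2 K ((le_max_right _ _).trans hK) J
    have h3 : e / 4 * (K : ℝ) = e / 8 * K + e / 8 * K := by ring
    rw [h3]
    refine cardle K _ _ _ _ _ _ ?_ _ _ f1 f2
    intro i hi
    have h4 : J + i * W + W = J + (i + 1) * W := by ring
    rw [h4] at hi
    by_cases hA : WGood q m g (t1 θ l) l l T (J + (i + 1) * W) wm
    · right
      intro hB
      exact hi ⟨hA, hB⟩
    · left
      exact hA

end Pool.Agent.H24.FD
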